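import Mathlib

/-!
# Counting two-colourings fixed by some element of a twisted coset

`G` is a finite group acting on a finite set `E` and `φ : E ≃ E` commutes with the action.  We count
the maps `c : E → Bool` for which some `g : G` satisfies `c (g • φ e) = c e` for all `e`.
-/

set_option autoImplicit false

open Finset

namespace Pool.Agent.TH349.SelfConverse

variable {E G : Type} [Group G] [MulAction G E] {k : ℕ}

/-- one step of the relation on `E` generated by the maps `e ↦ σ i • φ e` -/
def Step (φ : E ≃ E) (σ : Fin k → G) (e e' : E) : Prop := ∃ i, e' = σ i • φ e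

/-- colourings fixed by all the maps `e ↦ σ i • φ e` are colourings of the classes -/
theorem card_fixed [Finite E] (φ : E ≃ E) (σ : Fin k → G) :
    Nat.card {c : E → Bool // ∀ i e, c (σ i • φ e) = c e} = 2 ^ Nat.card (Quot (Step φ σ)) := by
  classical
  have e : {c : E → Bool // ∀ i e, c (σ i • φ e) = c e} ≃ (Quot (Step φ σ) → Bool) :=
    { toFun := fun c => Quot.lift c.1 (by
        rintro x y ⟨i, rfl⟩
        exact (c.2 i x).symm)
      invFun := fun f => ⟨fun e => f (Quot.mk _ e), by
        intro i e
        have : Quot.mk (Step φ σ) (σ i • φ e) = Quot.mk (Step φ σ) e := (Quot.sound ⟨i, rfl⟩).symm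
        exact congrArg f this⟩
      left_inv := by
        intro c
        rfl
      right_inv := by
        intro f
        funext q
        induction q using Quot.ind
        rfl }
  have : Finite (Quot (Step φ σ)) := Quot.finite _
  rw [Nat.card_congr e, Nat.card_fun]
  simp

/-- the group elements `g` with `c (g • φ e) = c e` for all `e` -/
def Tw (G : Type) [Group G] [MulAction G E] (φ : E ≃ E) (c : E → Bool) : Type :=
  {g : G // ∀ e, c (g • φ e) = c e}

/-- the stabiliser of a colouring -/
def stab (G : Type) [Group G] [MulAction G E] (c : E → Bool) : Subgroup G where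
  carrier := {g | ∀ e, c (g • e) = c e}
  mul_mem' := by
    intro a b ha hb e
    rw [mul_smul, ha, hb]
  one_mem' := by intro e; rw [one_smul]
  inv_mem' := by
    intro a ha e
    have := ha (a⁻¹ • e)
    rw [smul_inv_smul] at this
    exact this.symm

theorem card_tw [Finite G] (φ : E ≃ E) (hφ : ∀ (g : G) e, φ (g • e) = g • φ e) (c : E → Bool) :
    Nat.card (Tw G φ c) = 0 ∨ Nat.card (Tw G φ c) ∈ (Nat.card G).divisors := by
  classical
  by_cases h : Nonempty (Tw G φ c)
  · right
    obtain ⟨g0⟩ := h
    have e : Tw G φ c ≃ stab G c :=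
      { toFun := fun g => ⟨g0.1⁻¹ * g.1, by
          intro e
          obtain ⟨e', rfl⟩ := φ.surjective e
          have h1 := g0.2 ((g0.1⁻¹ * g.1) • φ e')
          rw [hφ, ← mul_smul, mul_inv_cancel_left] at h1
          rw [← h1, g.2]⟩
        invFun := fun h => ⟨g0.1 * h.1, by
          intro e
          have h1 := h.2 e
          have h2 := g0.2 (h.1 • e)
          rw [hφ, ← mul_smul] at h2
          rw [h2, h1]⟩
        left_inv := by intro g; apply Subtype.ext; simp
        right_inv := by intro g; apply Subtype.ext; simp }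
    rw [Nat.card_congr e, Nat.mem_divisors]
    exact ⟨Subgroup.card_subgroup_dvd_card _, Nat.card_pos.ne'⟩
  · left
    rw [Nat.card_eq_zero]
    left
    exact not_nonempty_iff.mp h

theorem sum_pow [Fintype E] [DecidableEq E] [Fintype G] (φ : E ≃ E) (k : ℕ) :
    ∑ c : E → Bool, (Nat.card (Tw G φ c)) ^ k =
      ∑ σ : Fin k → G, 2 ^ Nat.card (Quot (Step φ σ)) := by
  classical
  have h1 : ∀ c : E → Bool, (Nat.card (Tw G φ c)) ^ k =
      ∑ σ : Fin k → G, if (∀ i e, c (σ i • φ e) = c e) then 1 else 0 := by
    intro c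
    have e : (Fin k → Tw G φ c) ≃ {σ : Fin k → G // ∀ i e, c (σ i • φ e) = c e} :=
      { toFun := fun f => ⟨fun i => (f i).1, fun i => (f i).2⟩
        invFun := fun σ i => ⟨σ.1 i, σ.2 i⟩
        left_inv := fun f => rfl
        right_inv := fun f => rfl }
    have h2 : Nat.card (Fin k → Tw G φ c) = (Nat.card (Tw G φ c)) ^ k := by
      rw [Nat.card_fun]; simp
    rw [← h2, Nat.card_congr e, Nat.card_eq_fintype_card, Fintype.card_subtype, Finset.card_filter]
  simp_rw [h1]
  rw [Finset.sum_comm]
  apply Finset.sum_congr rfl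
  intro σ _
  rw [← card_fixed φ σ]
  rw [Nat.card_eq_fintype_card, Fintype.card_subtype, Finset.card_filter]

/-- the explicit formula (general form) -/
theorem main [Fintype E] [DecidableEq E] [Fintype G] (φ : E ≃ E)
    (hφ : ∀ (g : G) e, φ (g • e) = g • φ e) :
    (Nat.card {c : E → Bool // ∃ g : G, ∀ e, c (g • φ e) = c e} : ℚ) =
      ∑ A ∈ (Nat.card G).divisors.powerset.erase ∅,
        ((-1) ^ (A.card + 1) / ∏ d ∈ A, (d : ℚ)) *
          ∑ σ : Fin A.card → G, (2 : ℚ) ^ Nat.card (Quot (Step φ σ)) := by
  classical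
  have h0 : ∀ c : E → Bool, (if (∃ g : G, ∀ e, c (g • φ e) = c e) then (1 : ℚ) else 0) =
      ∑ A ∈ (Nat.card G).divisors.powerset.erase ∅,
        ((-1) ^ (A.card + 1) / ∏ d ∈ A, (d : ℚ)) * (Nat.card (Tw G φ c) : ℚ) ^ A.card := by
    intro c
    set N : ℚ := (Nat.card (Tw G φ c) : ℚ) with hN
    have hprod : ∏ d ∈ (Nat.card G).divisors, (1 - N / (d : ℚ)) =
        ∑ A ∈ (Nat.card G).divisors.powerset, ((-1) ^ A.card / ∏ d ∈ A, (d : ℚ)) * N ^ A.card := by
      rw [Finset.prod_sub]
      apply Finset.sum_congr rfl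
      intro A _
      rw [Finset.prod_const_one, Finset.prod_div_distrib, Finset.prod_const]
      ring
    have hsum : ∑ A ∈ (Nat.card G).divisors.powerset.erase ∅,
        ((-1) ^ (A.card + 1) / ∏ d ∈ A, (d : ℚ)) * N ^ A.card =
        1 - ∏ d ∈ (Nat.card G).divisors, (1 - N / (d : ℚ)) := by
      rw [hprod, ← Finset.add_sum_erase _ _ (Finset.empty_mem_powerset _)]
      simp only [Finset.card_empty, pow_zero, Finset.prod_empty, div_one, mul_one]
      rw [sub_add_eq_sub_sub, sub_self, zero_sub, ← Finset.sum_neg_distrib]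
      apply Finset.sum_congr rfl
      intro A _
      rw [pow_succ]
      ring
    rw [hsum]
    rcases card_tw (G := G) φ hφ c with hz | hd
    · have hne : ¬ ∃ g : G, ∀ e, c (g • φ e) = c e := by
        rintro ⟨g, hg⟩
        rw [Nat.card_eq_zero] at hz
        rcases hz with hz | hz
        · exact hz.false ⟨g, hg⟩
        · have : Finite (Tw G φ c) := by unfold Tw; infer_instance
          exact not_finite (Tw G φ c)
      have hN0 : N = 0 := by rw [hN, hz]; simp
      rw [if_neg hne, hN0]
      simp
    · have hpos : Nat.card (Tw G φ c) ≠ 0 := (Nat.pos_of_mem_divisors hd).ne'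
      have hex : ∃ g : G, ∀ e, c (g • φ e) = c e := by
        have : Nonempty (Tw G φ c) := by
          by_contra hne
          apply hpos
          rw [Nat.card_eq_zero]
          left
          exact not_nonempty_iff.mp hne
        obtain ⟨g⟩ := this
        exact ⟨g.1, g.2⟩
      rw [if_pos hex, Finset.prod_eq_zero hd]
      · simp
      · rw [hN, div_self (by exact_mod_cast hpos), sub_self]
  have h1 : (Nat.card {c : E → Bool // ∃ g : G, ∀ e, c (g • φ e) = c e} : ℚ) =
      ∑ c : E → Bool, (if (∃ g : G, ∀ e, c (g • φ e) = c e) then (1 : ℚ) else 0) := by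
    rw [Nat.card_eq_fintype_card, Fintype.card_subtype, Finset.card_filter]
    push_cast
    rfl
  rw [h1]
  simp_rw [h0]
  rw [Finset.sum_comm]
  apply Finset.sum_congr rfl
  intro A _
  rw [← Finset.mul_sum]
  congr 1
  have := sum_pow (E := E) (G := G) φ A.card
  exact_mod_cast this

end Pool.Agent.TH349.SelfConverse
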